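import Mathlib
import Pool.Agent.Y871.TK.Top
import Pool.Agent.Helper9CH.Two

/-!
# It is consistent that some non-p-point `U` satisfies `(U, ⊇*) <_T (U, ⊇)`

The continuum hypothesis can be forced, and so can Martin's axiom with `𝔠 = ℵ₂`; each of them
gives two p-points whose Fubini product `U` is not a p-point and satisfies `(U, ⊇*) <_T (U, ⊇)`.
All definitions used in the last two parts of the statement are in this file.
-/

set_option autoImplicit false

open Set Cardinal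

namespace Pool.Agent.Results.MP_8fdcc7_lc.ConsistentlyYes

/-- Tukey reducibility `(P, r) ≤_T (Q, s)`, where `r a b` means that `b` is above `a`: some map
`f : P → Q` sends every unbounded subset of `P` to an unbounded subset of `Q`. -/
def Tukey {P Q : Type} (r : P → P → Prop) (s : Q → Q → Prop) : Prop :=
  ∃ f : P → Q, ∀ A : Set P, (¬ ∃ b, ∀ a ∈ A, r a b) → ¬ ∃ c, ∀ a ∈ A, s (f a) c

/-- The order `(U, ⊇)`: `B` is above `A` when `A ⊇ B`. -/
def Incl (U : Ultrafilter ℕ) (A B : {A : Set ℕ // A ∈ U}) : Prop := B.1 ⊆ A.1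

/-- The order `(U, ⊇*)`: `B` is above `A` when `B \ A` is finite. -/
def Alm (U : Ultrafilter ℕ) (A B : {A : Set ℕ // A ∈ U}) : Prop := (B.1 \ A.1).Finite

/-- Nonprincipal ultrafilters on `ℕ`. -/
def Nonprincipal (U : Ultrafilter ℕ) : Prop := ∀ n : ℕ, ({n} : Set ℕ) ∉ U

/-- `U` is a p-point: every countable subfamily of `U` has a pseudo-intersection in `U`. -/
def PPoint (U : Ultrafilter ℕ) : Prop :=
  ∀ S : Set (Set ℕ), S.Countable → (∀ A ∈ S, A ∈ U) → ∃ B ∈ U, ∀ A ∈ S, (B \ A).Finite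

/-- The Fubini product `V · W`, as an ultrafilter on `ℕ` through the pairing function: `A` is in
it when for `V`-many `i` the column `{j | ⟨i, j⟩ ∈ A}` is in `W`. -/
def fubini (V W : Ultrafilter ℕ) : Ultrafilter ℕ := V.bind fun i => W.map (Nat.pair i)

/-- The dominating number `𝔡`. -/
noncomputable def d : Cardinal.{0} :=
  sInf {κ | ∃ S : Set (ℕ → ℕ), (∀ f : ℕ → ℕ, ∃ g ∈ S, ∀ᶠ n in Filter.atTop, f n ≤ g n) ∧ #S = κ}

/-- The answer of Q1 for a pair of p-points: their Fubini product is a nonprincipal ultrafilter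
`U` which is not a p-point and satisfies `(U, ⊇*) <_T (U, ⊇)`. -/
def Example (U : Ultrafilter ℕ) : Prop :=
  Nonprincipal U ∧ ¬ PPoint U ∧ Tukey (Alm U) (Incl U) ∧ ¬ Tukey (Incl U) (Alm U)

/-- There are p-points `V`, `W` such that `V · W` is an example. -/
def ExampleExists : Prop :=
  ∃ V W : Ultrafilter ℕ, Nonprincipal V ∧ PPoint V ∧ Nonprincipal W ∧ PPoint W ∧
    Example (fubini V W)

theorem dominating_univ : ∀ f : ℕ → ℕ, ∃ g ∈ (univ : Set (ℕ → ℕ)),
    ∀ᶠ n in Filter.atTop, f n ≤ g n := fun f => ⟨f, mem_univ _, Filter.Eventually.of_forall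
      fun _ => le_rfl⟩

theorem d_le : d ≤ 𝔠 := by
  refine csInf_le' ⟨univ, dominating_univ, ?_⟩
  rw [mk_univ]
  simp

/-- no family of cardinality less than `κ` is dominating -/
theorem le_d {κ : Cardinal.{0}} (h : ∀ S : Set (ℕ → ℕ), #S < κ →
    ∃ f : ℕ → ℕ, ∀ g ∈ S, ∀ᶠ n in Filter.atTop, g n < f n) : κ ≤ d := by
  refine le_csInf ⟨_, univ, dominating_univ, rfl⟩ ?_
  rintro _ ⟨S, hS, rfl⟩
  by_contra hlt
  obtain ⟨f, hf⟩ := h S (not_le.1 hlt)
  obtain ⟨g, hg, hfg⟩ := hS f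
  obtain ⟨n, h1, h2⟩ := ((hf g hg).and hfg).exists
  exact absurd h2 (not_le.2 h1)

/-- The countable chain condition: every set of pairwise incompatible conditions is countable
(a smaller condition is stronger). -/
def IsCCC (P : Type) [Preorder P] : Prop :=
  ∀ A : Set P, (∀ p ∈ A, ∀ q ∈ A, p ≠ q → ¬ ∃ r : P, r ≤ p ∧ r ≤ q) → A.Countable

/-- Martin's axiom: for every nonempty preordered set with the countable chain condition and every
family of fewer than continuum many dense subsets there is a filter which meets each of them. -/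
def MA : Prop :=
  ∀ (P : Type) [Preorder P] [Nonempty P], IsCCC P →
    ∀ 𝒟 : Set (Set P), #𝒟 < 𝔠 → (∀ D ∈ 𝒟, ∀ p : P, ∃ q ∈ D, q ≤ p) →
      ∃ G : Set P, G.Nonempty ∧ (∀ p ∈ G, ∀ q : P, p ≤ q → q ∈ G) ∧
        (∀ p ∈ G, ∀ q ∈ G, ∃ r ∈ G, r ≤ p ∧ r ≤ q) ∧ ∀ D ∈ 𝒟, (G ∩ D).Nonempty

theorem martin_of_ma (h : MA) : Pool.Agent.Y40.MA.MartinAxiom := by
  intro P _ _ hP 𝒟 h𝒟 hD
  obtain ⟨G, h1, h2, h3, h4⟩ := h P (fun A hA => hP A hA) 𝒟 h𝒟 (fun D hDm => hD D hDm)
  exact ⟨G, ⟨h1, h2, h3⟩, h4⟩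

theorem ma_of_martin (h : Pool.Agent.Y40.MA.MartinAxiom) : MA := by
  intro P _ _ hP 𝒟 h𝒟 hD
  obtain ⟨G, ⟨h1, h2, h3⟩, h4⟩ := h P (fun A hA => hP A hA) 𝒟 h𝒟 (fun D hDm => hD D hDm)
  exact ⟨G, h1, h2, h3, h4⟩

theorem d_eq (h : MA) : d = 𝔠 := by
  refine le_antisymm d_le (le_d fun S hS => ?_)
  obtain ⟨g, hg⟩ := Pool.Agent.Y40.MA.bounded_of_lt (martin_of_ma h) (T := S) hS fun s => s.1
  refine ⟨fun i => g i + i + 1, fun s hs => ?_⟩
  obtain ⟨k, hk⟩ := hg ⟨s, hs⟩
  filter_upwards [Filter.eventually_ge_atTop k] with i hi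
  have := hk i
  dsimp at this
  omega

/-- **Q1 has a positive answer: such ultrafilters consistently exist.**

(1) Some forcing notion forces, below every condition, that `ω₁` is preserved and that the
continuum hypothesis holds. (2) Some forcing notion forces, below every condition, that `ω₁` is
preserved, that Martin's axiom for `ℵ₁` dense sets holds and that the continuum is at most `ℵ₂`;
(3) together the latter two sentences imply Martin's axiom and `𝔠 = ℵ₂`. (4) The continuum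
hypothesis implies Martin's axiom. (5) Martin's axiom implies that there are p-points `V`, `W`
whose Fubini product `U` is a nonprincipal ultrafilter that is not a p-point and satisfies
`(U, ⊇*) <_T (U, ⊇)`; (6) the hypothesis `𝔡 = 𝔠` suffices. -/
theorem result :
    (∃ (P : Type) (_ : Preorder P), Nonempty P ∧ ∀ p : P,
      p ∈ Pool.Agent.Helper292.ForceCH.OmegaOnePreserved P ∧
      p ∈ Pool.Agent.Helper292.ForceCH.CHHolds P) ∧
    (∃ (P : Type) (_ : Preorder P), Nonempty P ∧ ∀ p : P,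
      p ∈ Pool.Agent.W684.FM.OmegaOnePreserved P ∧
      p ∈ Pool.Agent.W684.FM.MartinHolds P Pool.Agent.W684.FM.Om1 ∧
      p ∈ Pool.Agent.Helper669.Forcing.ContinuumLe P (ℵ_ 2 : Cardinal.{0}).out) ∧
    (Pool.Agent.W684.FM.MartinFor Pool.Agent.W684.FM.Om1 → (𝔠 : Cardinal.{0}) ≤ ℵ_ 2 →
      MA ∧ (𝔠 : Cardinal.{0}) = ℵ_ 2) ∧
    ((𝔠 : Cardinal.{0}) = ℵ₁ → MA) ∧
    (MA → ExampleExists) ∧
    (d = 𝔠 → ExampleExists) := by
  have hd : d = 𝔠 → ExampleExists := by
    intro h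
    obtain ⟨V, W, hV, hVp, hW, hWp, hT⟩ := Pool.Agent.Y871.TK.top (Or.inl h)
    exact ⟨V, W, hV, hVp, hW, hWp, Pool.Agent.H341Q.TU.fub_nonPrin hW,
      Pool.Agent.H341Q.TU.fub_not_isPPt hV hW, Pool.Agent.H341Q.TU.almOrd_le_inclOrd _, hT⟩
  refine ⟨Pool.Agent.Helper9CH.exists_ch, Pool.Agent.W910.FC.exists_forcing, fun hM hc => ?_,
    fun h => ma_of_martin (Pool.Agent.Y40.MA.martin_of_ch h), fun h => hd (d_eq h), hd⟩
  obtain ⟨h1, h2⟩ := Pool.Agent.Helper9CH.martin_of_for hM hc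
  exact ⟨ma_of_martin h1, h2⟩

end Pool.Agent.Results.MP_8fdcc7_lc.ConsistentlyYes
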